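import Mathlib

open PowerSeries Finset

namespace Pool.Agent.MP667609

/-- The power series `G_{k,n}(q) = (q^{2k-1}; q^2)_n / (q; q^2)_{n+1}` with integer
coefficients; the denominator has constant term `1`, so its inverse exists. -/
noncomputable def G (k n : ℕ) : PowerSeries ℤ :=
  (∏ i ∈ range n, (1 - X ^ (2 * k - 1 + 2 * i))) *
    invOfUnit (∏ i ∈ range (n + 1), (1 - X ^ (2 * i + 1))) 1

lemma G_mul (k n : ℕ) : G k n * ∏ i ∈ range (n + 1), (1 - X ^ (2 * i + 1)) =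
    ∏ i ∈ range n, (1 - X ^ (2 * k - 1 + 2 * i)) := by
  unfold G
  rw [mul_assoc, invOfUnit_mul, mul_one]
  rw [map_prod, Units.val_one]
  refine prod_eq_one fun i _ => ?_
  simp

/-- All coefficients are nonnegative. -/
def NN (f : PowerSeries ℤ) : Prop := ∀ m, 0 ≤ coeff m f

lemma NN.add {f g : PowerSeries ℤ} (hf : NN f) (hg : NN g) : NN (f + g) := fun m => by
  rw [map_add]; exact add_nonneg (hf m) (hg m)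

lemma NN.mul {f g : PowerSeries ℤ} (hf : NN f) (hg : NN g) : NN (f * g) := fun m => by
  rw [coeff_mul]; exact Finset.sum_nonneg fun p _ => mul_nonneg (hf _) (hg _)

lemma nn_X_pow (t : ℕ) : NN (X ^ t : PowerSeries ℤ) := fun m => by
  rw [coeff_X_pow]; split_ifs <;> norm_num

lemma nn_one : NN (1 : PowerSeries ℤ) := by
  have := nn_X_pow 0
  rwa [pow_zero] at this

lemma nn_zero : NN (0 : PowerSeries ℤ) := fun m => by simp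

lemma nn_sum {c : ℕ} (f : ℕ → PowerSeries ℤ) (h : ∀ i, NN (f i)) : NN (∑ i ∈ range c, f i) := by
  induction c with
  | zero => simpa using nn_zero
  | succ c ih => rw [sum_range_succ]; exact ih.add (h c)

/-- `num / den` is a power series with nonnegative coefficients. -/
def Pos (num den : PowerSeries ℤ) : Prop := ∃ F, NN F ∧ F * den = num

lemma Pos.mul {n₁ d₁ n₂ d₂ : PowerSeries ℤ} (h₁ : Pos n₁ d₁) (h₂ : Pos n₂ d₂) :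
    Pos (n₁ * n₂) (d₁ * d₂) := by
  obtain ⟨F, hF, e₁⟩ := h₁
  obtain ⟨G, hG, e₂⟩ := h₂
  exact ⟨F * G, hF.mul hG, by rw [← e₁, ← e₂]; ring⟩

lemma Pos.add {n₁ n₂ d : PowerSeries ℤ} (h₁ : Pos n₁ d) (h₂ : Pos n₂ d) : Pos (n₁ + n₂) d := by
  obtain ⟨F, hF, e₁⟩ := h₁
  obtain ⟨G, hG, e₂⟩ := h₂
  exact ⟨F + G, hF.add hG, by rw [← e₁, ← e₂]; ring⟩

lemma Pos.shift {n d : PowerSeries ℤ} (t : ℕ) (h : Pos n d) : Pos (X ^ t * n) d := by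
  obtain ⟨F, hF, e⟩ := h
  exact ⟨X ^ t * F, (nn_X_pow t).mul hF, by rw [← e]; ring⟩

lemma pos_quot (a c : ℕ) : Pos (1 - X ^ (a * c)) (1 - X ^ a) := by
  refine ⟨∑ i ∈ range c, (X ^ a) ^ i, nn_sum _ fun i => ?_, ?_⟩
  · rw [← pow_mul]; exact nn_X_pow _
  · rw [mul_comm, mul_neg_geom_sum, pow_mul]

lemma pos_inv (a : ℕ) (ha : 1 ≤ a) : Pos 1 (1 - X ^ a) := by
  refine ⟨PowerSeries.mk fun m => if a ∣ m then 1 else 0, fun m => ?_, ?_⟩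
  · rw [coeff_mk]; split_ifs <;> norm_num
  · ext m
    rw [mul_sub, mul_one, map_sub, coeff_mul_X_pow', coeff_mk, coeff_one]
    by_cases hm : a ≤ m
    · rw [if_pos hm, coeff_mk]
      have h1 : (a ∣ m - a) ↔ a ∣ m := by
        constructor
        · intro h
          have := Nat.dvd_add h (dvd_refl a)
          rwa [Nat.sub_add_cancel hm] at this
        · intro h; exact Nat.dvd_sub h (dvd_refl a)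
      have h2 : m ≠ 0 := by omega
      simp only [h1, h2, if_false, sub_self]
    · rw [if_neg hm]
      by_cases h0 : m = 0
      · subst h0; simp
      · have h1 : ¬ a ∣ m := fun h => hm (Nat.le_of_dvd (Nat.pos_of_ne_zero h0) h)
        simp [h0, h1]

lemma pos_one (c : ℕ) : Pos (1 - X ^ c) (1 - X) := by
  have := pos_quot 1 c
  rwa [one_mul, pow_one] at this

lemma split_eq (p q : ℕ) :
    (1 - X ^ (p + q) : PowerSeries ℤ) = (1 - X ^ p) + X ^ p * (1 - X ^ q) := by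
  rw [pow_add]; ring

/-- If `s` lies in the numerical semigroup generated by `a, b`, then
`(1 - q^s) / ((1 - q^a)(1 - q^b))` has nonnegative coefficients. -/
lemma pos_pair {a b s : ℕ} (ha : 1 ≤ a) (hb : 1 ≤ b) (h : ∃ x y, s = a * x + b * y) :
    Pos (1 - X ^ s) ((1 - X ^ a) * (1 - X ^ b)) := by
  obtain ⟨x, y, rfl⟩ := h
  rw [split_eq]
  refine Pos.add ?_ (Pos.shift _ ?_)
  · simpa using (pos_quot a x).mul (pos_inv b hb)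
  · simpa using (pos_inv a ha).mul (pos_quot b y)

/-- Three denominators against two numerators. -/
lemma pos_triple {a b c s t : ℕ} (ha : 1 ≤ a) (hb : 1 ≤ b) (hc : 1 ≤ c)
    (h : ∃ x y, s = b * x + c * y) (h1 : ∃ x y, t = a * x + c * y)
    (h2 : ∃ x y, t = a * x + b * y) :
    Pos ((1 - X ^ s) * (1 - X ^ t)) ((1 - X ^ a) * (1 - X ^ b) * (1 - X ^ c)) := by
  obtain ⟨x, y, rfl⟩ := h
  rw [split_eq, add_mul, mul_assoc (X ^ _)]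
  refine Pos.add ?_ (Pos.shift _ ?_)
  · have := (pos_quot b x).mul (pos_pair ha hc h1)
    convert this using 1
    ring
  · have := (pos_quot c y).mul (pos_pair ha hb h2)
    convert this using 1
    ring

lemma one_sub_X_pow_ne (a : ℕ) (ha : 1 ≤ a) : (1 - X ^ a : PowerSeries ℤ) ≠ 0 := by
  intro h
  have := congrArg (coeff 0) h
  rw [map_sub, coeff_X_pow, if_neg (by omega)] at this
  simp at this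

lemma nn_of_pos {A n d : PowerSeries ℤ} (hd : d ≠ 0) (h : Pos n d) (e : A * d = n) : NN A := by
  obtain ⟨F, hF, e'⟩ := h
  have : A = F := mul_right_cancel₀ hd (e.trans e'.symm)
  rw [this]; exact hF

/-- `n = 2`, numerator `(1 - q^{2j})(1 - q^{2j+7})`. -/
lemma pos_two (j : ℕ) : Pos ((1 - X ^ (2 * j)) * (1 - X ^ (2 * j + 7)))
    ((1 - X) * ((1 - X ^ 3) * (1 - X ^ 5))) := by
  rcases Nat.eq_zero_or_pos j with rfl | hj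
  · exact ⟨0, nn_zero, by simp⟩
  · refine (pos_one _).mul (pos_pair (by norm_num) (by norm_num) ?_)
    have h3 : (2 * j + 7) % 3 = 0 ∨ (2 * j + 7) % 3 = 1 ∨ (2 * j + 7) % 3 = 2 := by omega
    rcases h3 with h | h | h
    · exact ⟨(2 * j + 7) / 3, 0, by omega⟩
    · exact ⟨(2 * j + 7 - 10) / 3, 2, by omega⟩
    · exact ⟨(2 * j + 7 - 5) / 3, 1, by omega⟩

lemma semi35 {s : ℕ} (hs : 8 ≤ s) : ∃ x y, s = 3 * x + 5 * y := by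
  have h3 : s % 3 = 0 ∨ s % 3 = 1 ∨ s % 3 = 2 := by omega
  rcases h3 with h | h | h
  · exact ⟨s / 3, 0, by omega⟩
  · exact ⟨(s - 10) / 3, 2, by omega⟩
  · exact ⟨(s - 5) / 3, 1, by omega⟩

lemma semi37 {s : ℕ} (hs : 12 ≤ s) : ∃ x y, s = 3 * x + 7 * y := by
  have h3 : s % 3 = 0 ∨ s % 3 = 1 ∨ s % 3 = 2 := by omega
  rcases h3 with h | h | h
  · exact ⟨s / 3, 0, by omega⟩
  · exact ⟨(s - 7) / 3, 1, by omega⟩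
  · exact ⟨(s - 14) / 3, 2, by omega⟩

lemma semi57 {s : ℕ} (hs : 24 ≤ s ∨ s = 15 ∨ s = 17 ∨ s = 19 ∨ s = 21) :
    ∃ x y, s = 5 * x + 7 * y := by
  have h5 : s % 5 = 0 ∨ s % 5 = 1 ∨ s % 5 = 2 ∨ s % 5 = 3 ∨ s % 5 = 4 := by omega
  rcases h5 with h | h | h | h | h
  · exact ⟨s / 5, 0, by omega⟩
  · exact ⟨(s - 21) / 5, 3, by omega⟩
  · exact ⟨(s - 7) / 5, 1, by omega⟩
  · exact ⟨(s - 28) / 5, 4, by omega⟩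
  · exact ⟨(s - 14) / 5, 2, by omega⟩

/-- `n = 3`, numerator `(1 - q^{2j})(1 - q^{2j+9})(1 - q^{2j+11})`. -/
lemma pos_three (j : ℕ) :
    Pos ((1 - X ^ (2 * j)) * ((1 - X ^ (2 * j + 9)) * (1 - X ^ (2 * j + 11))))
    ((1 - X) * ((1 - X ^ 3) * (1 - X ^ 5) * (1 - X ^ 7))) := by
  rcases Nat.eq_zero_or_pos j with rfl | hj
  · exact ⟨0, nn_zero, by simp⟩
  by_cases hj1 : j = 1
  · subst hj1
    have key : ((1 - X ^ (2 * 1)) * ((1 - X ^ (2 * 1 + 9)) * (1 - X ^ (2 * 1 + 11))) :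
        PowerSeries ℤ) = (1 - X) * (((1 - X ^ 12) * (1 - X ^ 13)) +
          X ^ 1 * ((1 - X ^ (5 * 2)) * (1 - X ^ 13))) := by ring
    rw [key]
    have h1 : Pos (1 - X : PowerSeries ℤ) (1 - X) := ⟨1, nn_one, by ring⟩
    refine h1.mul (Pos.add ?_ (Pos.shift _ ?_))
    · exact pos_triple (by norm_num) (by norm_num) (by norm_num) ⟨1, 1, by norm_num⟩
        (semi37 (by norm_num)) (semi35 (by norm_num))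
    · have := (pos_quot 5 2).mul (pos_pair (a := 3) (b := 7) (s := 13) (by norm_num)
        (by norm_num) (semi37 (by norm_num)))
      convert this using 1
      ring
  · refine (pos_one _).mul ?_
    by_cases hs : 24 ≤ 2 * j + 9 ∨ 2 * j + 9 = 15 ∨ 2 * j + 9 = 17 ∨ 2 * j + 9 = 19 ∨
        2 * j + 9 = 21
    · exact pos_triple (by norm_num) (by norm_num) (by norm_num) (semi57 hs)
        (semi37 (by omega)) (semi35 (by omega))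
    · rw [mul_comm (1 - X ^ (2 * j + 9))]
      exact pos_triple (by norm_num) (by norm_num) (by norm_num) (semi57 (by omega))
        (semi37 (by omega)) (semi35 (by omega))

/-- Multiset form of `Pos`. -/
def PosM (S A : Multiset ℕ) : Prop :=
  Pos ((S.map fun s => (1 - X ^ s : PowerSeries ℤ)).prod)
    ((A.map fun a => (1 - X ^ a : PowerSeries ℤ)).prod)

lemma pm_base (a : ℕ) (ha : 1 ≤ a) : PosM 0 (a ::ₘ 0) := by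
  unfold PosM
  simpa using pos_inv a ha

lemma pm_one {S A S' A' : Multiset ℕ} (s a x : ℕ) (hS : S = s ::ₘ S') (hA : A = a ::ₘ A')
    (hs : s = a * x) (h : PosM S' A') : PosM S A := by
  subst hS hA hs
  unfold PosM at *
  rw [Multiset.map_cons, Multiset.prod_cons, Multiset.map_cons, Multiset.prod_cons]
  exact (pos_quot a x).mul h

lemma pm_two {S A S' A' : Multiset ℕ} (s a b x y : ℕ) (hS : S = s ::ₘ S')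
    (hA : A = a ::ₘ b ::ₘ A') (hs : s = a * x + b * y)
    (h1 : PosM S' (b ::ₘ A')) (h2 : PosM S' (a ::ₘ A')) : PosM S A := by
  have e1 : PosM ((a * x) ::ₘ S') A := pm_one (a * x) a x rfl hA rfl h1
  have e2 : PosM ((b * y) ::ₘ S') A :=
    pm_one (b * y) b y rfl (hA.trans (Multiset.cons_swap _ _ _)) rfl h2
  subst hS hs
  unfold PosM at *
  rw [Multiset.map_cons, Multiset.prod_cons] at e1 e2 ⊢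
  rw [split_eq, add_mul, mul_assoc (X ^ _)]
  exact e1.add (e2.shift _)

lemma of_four {a b c d : ℕ}
    (h : PosM (a ::ₘ b ::ₘ c ::ₘ d ::ₘ 0) (1 ::ₘ 3 ::ₘ 5 ::ₘ 7 ::ₘ 9 ::ₘ 0)) :
    Pos ((1 - X ^ a) * ((1 - X ^ b) * (1 - X ^ c) * (1 - X ^ d)))
      ((1 - X) * ((1 - X ^ 3) * ((1 - X ^ 5) * (1 - X ^ 7) * (1 - X ^ 9)))) := by
  unfold PosM at h
  simp only [Multiset.map_cons, Multiset.prod_cons, Multiset.map_zero, Multiset.prod_zero,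
    mul_one, pow_one] at h
  convert h using 1 <;> ring

lemma of_three {a b c : ℕ}
    (h : PosM (a ::ₘ b ::ₘ c ::ₘ 0) (3 ::ₘ 5 ::ₘ 7 ::ₘ 9 ::ₘ 0)) :
    Pos ((1 - X ^ a) * ((1 - X ^ b) * (1 - X ^ c)))
      ((1 - X ^ 3) * ((1 - X ^ 5) * (1 - X ^ 7) * (1 - X ^ 9))) := by
  unfold PosM at h
  simp only [Multiset.map_cons, Multiset.prod_cons, Multiset.map_zero, Multiset.prod_zero,
    mul_one] at h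
  convert h using 1
  ring

lemma small4_3 : PosM (6 ::ₘ 17 ::ₘ 19 ::ₘ 21 ::ₘ 0) (1 ::ₘ 3 ::ₘ 5 ::ₘ 7 ::ₘ 9 ::ₘ 0) :=
  (pm_one (S := 6 ::ₘ 17 ::ₘ 19 ::ₘ 21 ::ₘ 0) (A := 1 ::ₘ 3 ::ₘ 5 ::ₘ 7 ::ₘ 9 ::ₘ 0) (S' := 17 ::ₘ 19 ::ₘ 21 ::ₘ 0) (A' := 1 ::ₘ 5 ::ₘ 7 ::ₘ 9 ::ₘ 0) 6 3 2 (by decide) (by decide) (by norm_num)
   (pm_one (S := 17 ::ₘ 19 ::ₘ 21 ::ₘ 0) (A := 1 ::ₘ 5 ::ₘ 7 ::ₘ 9 ::ₘ 0) (S' := 19 ::ₘ 21 ::ₘ 0) (A' := 5 ::ₘ 7 ::ₘ 9 ::ₘ 0) 17 1 17 (by decide) (by decide) (by norm_num)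
    (pm_two (S := 19 ::ₘ 21 ::ₘ 0) (A := 5 ::ₘ 7 ::ₘ 9 ::ₘ 0) (S' := 21 ::ₘ 0) (A' := 7 ::ₘ 0) 19 5 9 2 1 (by decide) (by decide) (by norm_num)
     (pm_one (S := 21 ::ₘ 0) (A := 9 ::ₘ 7 ::ₘ 0) (S' := 0) (A' := 9 ::ₘ 0) 21 7 3 (by decide) (by decide) (by norm_num)
      (pm_base 9 (by norm_num)))
     (pm_one (S := 21 ::ₘ 0) (A := 5 ::ₘ 7 ::ₘ 0) (S' := 0) (A' := 5 ::ₘ 0) 21 7 3 (by decide) (by decide) (by norm_num)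
      (pm_base 5 (by norm_num))))))

lemma small4_4 : PosM (8 ::ₘ 19 ::ₘ 21 ::ₘ 23 ::ₘ 0) (1 ::ₘ 3 ::ₘ 5 ::ₘ 7 ::ₘ 9 ::ₘ 0) :=
  (pm_one (S := 8 ::ₘ 19 ::ₘ 21 ::ₘ 23 ::ₘ 0) (A := 1 ::ₘ 3 ::ₘ 5 ::ₘ 7 ::ₘ 9 ::ₘ 0) (S' := 19 ::ₘ 21 ::ₘ 23 ::ₘ 0) (A' := 3 ::ₘ 5 ::ₘ 7 ::ₘ 9 ::ₘ 0) 8 1 8 (by decide) (by decide) (by norm_num)
   (pm_two (S := 19 ::ₘ 21 ::ₘ 23 ::ₘ 0) (A := 3 ::ₘ 5 ::ₘ 7 ::ₘ 9 ::ₘ 0) (S' := 21 ::ₘ 23 ::ₘ 0) (A' := 5 ::ₘ 9 ::ₘ 0) 19 3 7 4 1 (by decide) (by decide) (by norm_num)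
    (pm_one (S := 21 ::ₘ 23 ::ₘ 0) (A := 7 ::ₘ 5 ::ₘ 9 ::ₘ 0) (S' := 23 ::ₘ 0) (A' := 5 ::ₘ 9 ::ₘ 0) 21 7 3 (by decide) (by decide) (by norm_num)
     (pm_two (S := 23 ::ₘ 0) (A := 5 ::ₘ 9 ::ₘ 0) (S' := 0) (A' := 0) 23 5 9 1 2 (by decide) (by decide) (by norm_num)
      (pm_base 9 (by norm_num))
      (pm_base 5 (by norm_num))))
    (pm_one (S := 21 ::ₘ 23 ::ₘ 0) (A := 3 ::ₘ 5 ::ₘ 9 ::ₘ 0) (S' := 23 ::ₘ 0) (A' := 5 ::ₘ 9 ::ₘ 0) 21 3 7 (by decide) (by decide) (by norm_num)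
     (pm_two (S := 23 ::ₘ 0) (A := 5 ::ₘ 9 ::ₘ 0) (S' := 0) (A' := 0) 23 5 9 1 2 (by decide) (by decide) (by norm_num)
      (pm_base 9 (by norm_num))
      (pm_base 5 (by norm_num))))))

lemma small4_5 : PosM (10 ::ₘ 21 ::ₘ 23 ::ₘ 25 ::ₘ 0) (1 ::ₘ 3 ::ₘ 5 ::ₘ 7 ::ₘ 9 ::ₘ 0) :=
  (pm_one (S := 10 ::ₘ 21 ::ₘ 23 ::ₘ 25 ::ₘ 0) (A := 1 ::ₘ 3 ::ₘ 5 ::ₘ 7 ::ₘ 9 ::ₘ 0) (S' := 21 ::ₘ 23 ::ₘ 25 ::ₘ 0) (A' := 3 ::ₘ 5 ::ₘ 7 ::ₘ 9 ::ₘ 0) 10 1 10 (by decide) (by decide) (by norm_num)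
   (pm_one (S := 21 ::ₘ 23 ::ₘ 25 ::ₘ 0) (A := 3 ::ₘ 5 ::ₘ 7 ::ₘ 9 ::ₘ 0) (S' := 23 ::ₘ 25 ::ₘ 0) (A' := 5 ::ₘ 7 ::ₘ 9 ::ₘ 0) 21 3 7 (by decide) (by decide) (by norm_num)
    (pm_two (S := 23 ::ₘ 25 ::ₘ 0) (A := 5 ::ₘ 7 ::ₘ 9 ::ₘ 0) (S' := 25 ::ₘ 0) (A' := 7 ::ₘ 0) 23 5 9 1 2 (by decide) (by decide) (by norm_num)
     (pm_two (S := 25 ::ₘ 0) (A := 9 ::ₘ 7 ::ₘ 0) (S' := 0) (A' := 0) 25 7 9 1 2 (by decide) (by decide) (by norm_num)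
      (pm_base 9 (by norm_num))
      (pm_base 7 (by norm_num)))
     (pm_one (S := 25 ::ₘ 0) (A := 5 ::ₘ 7 ::ₘ 0) (S' := 0) (A' := 7 ::ₘ 0) 25 5 5 (by decide) (by decide) (by norm_num)
      (pm_base 7 (by norm_num))))))

lemma small4_6 : PosM (12 ::ₘ 23 ::ₘ 25 ::ₘ 27 ::ₘ 0) (1 ::ₘ 3 ::ₘ 5 ::ₘ 7 ::ₘ 9 ::ₘ 0) :=
  (pm_one (S := 12 ::ₘ 23 ::ₘ 25 ::ₘ 27 ::ₘ 0) (A := 1 ::ₘ 3 ::ₘ 5 ::ₘ 7 ::ₘ 9 ::ₘ 0) (S' := 23 ::ₘ 25 ::ₘ 27 ::ₘ 0) (A' := 1 ::ₘ 5 ::ₘ 7 ::ₘ 9 ::ₘ 0) 12 3 4 (by decide) (by decide) (by norm_num)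
   (pm_one (S := 23 ::ₘ 25 ::ₘ 27 ::ₘ 0) (A := 1 ::ₘ 5 ::ₘ 7 ::ₘ 9 ::ₘ 0) (S' := 25 ::ₘ 27 ::ₘ 0) (A' := 5 ::ₘ 7 ::ₘ 9 ::ₘ 0) 23 1 23 (by decide) (by decide) (by norm_num)
    (pm_one (S := 25 ::ₘ 27 ::ₘ 0) (A := 5 ::ₘ 7 ::ₘ 9 ::ₘ 0) (S' := 27 ::ₘ 0) (A' := 7 ::ₘ 9 ::ₘ 0) 25 5 5 (by decide) (by decide) (by norm_num)
     (pm_one (S := 27 ::ₘ 0) (A := 7 ::ₘ 9 ::ₘ 0) (S' := 0) (A' := 7 ::ₘ 0) 27 9 3 (by decide) (by decide) (by norm_num)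
      (pm_base 7 (by norm_num))))))

lemma small4_7 : PosM (14 ::ₘ 25 ::ₘ 27 ::ₘ 29 ::ₘ 0) (1 ::ₘ 3 ::ₘ 5 ::ₘ 7 ::ₘ 9 ::ₘ 0) :=
  (pm_one (S := 14 ::ₘ 25 ::ₘ 27 ::ₘ 29 ::ₘ 0) (A := 1 ::ₘ 3 ::ₘ 5 ::ₘ 7 ::ₘ 9 ::ₘ 0) (S' := 25 ::ₘ 27 ::ₘ 29 ::ₘ 0) (A' := 1 ::ₘ 3 ::ₘ 5 ::ₘ 9 ::ₘ 0) 14 7 2 (by decide) (by decide) (by norm_num)
   (pm_one (S := 25 ::ₘ 27 ::ₘ 29 ::ₘ 0) (A := 1 ::ₘ 3 ::ₘ 5 ::ₘ 9 ::ₘ 0) (S' := 27 ::ₘ 29 ::ₘ 0) (A' := 3 ::ₘ 5 ::ₘ 9 ::ₘ 0) 25 1 25 (by decide) (by decide) (by norm_num)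
    (pm_one (S := 27 ::ₘ 29 ::ₘ 0) (A := 3 ::ₘ 5 ::ₘ 9 ::ₘ 0) (S' := 29 ::ₘ 0) (A' := 3 ::ₘ 5 ::ₘ 0) 27 9 3 (by decide) (by decide) (by norm_num)
     (pm_two (S := 29 ::ₘ 0) (A := 3 ::ₘ 5 ::ₘ 0) (S' := 0) (A' := 0) 29 3 5 3 4 (by decide) (by decide) (by norm_num)
      (pm_base 5 (by norm_num))
      (pm_base 3 (by norm_num))))))

lemma small4_8 : PosM (16 ::ₘ 27 ::ₘ 29 ::ₘ 31 ::ₘ 0) (1 ::ₘ 3 ::ₘ 5 ::ₘ 7 ::ₘ 9 ::ₘ 0) :=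
  (pm_one (S := 16 ::ₘ 27 ::ₘ 29 ::ₘ 31 ::ₘ 0) (A := 1 ::ₘ 3 ::ₘ 5 ::ₘ 7 ::ₘ 9 ::ₘ 0) (S' := 27 ::ₘ 29 ::ₘ 31 ::ₘ 0) (A' := 3 ::ₘ 5 ::ₘ 7 ::ₘ 9 ::ₘ 0) 16 1 16 (by decide) (by decide) (by norm_num)
   (pm_one (S := 27 ::ₘ 29 ::ₘ 31 ::ₘ 0) (A := 3 ::ₘ 5 ::ₘ 7 ::ₘ 9 ::ₘ 0) (S' := 29 ::ₘ 31 ::ₘ 0) (A' := 3 ::ₘ 5 ::ₘ 7 ::ₘ 0) 27 9 3 (by decide) (by decide) (by norm_num)
    (pm_two (S := 29 ::ₘ 31 ::ₘ 0) (A := 3 ::ₘ 5 ::ₘ 7 ::ₘ 0) (S' := 31 ::ₘ 0) (A' := 5 ::ₘ 0) 29 3 7 5 2 (by decide) (by decide) (by norm_num)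
     (pm_two (S := 31 ::ₘ 0) (A := 7 ::ₘ 5 ::ₘ 0) (S' := 0) (A' := 0) 31 5 7 2 3 (by decide) (by decide) (by norm_num)
      (pm_base 7 (by norm_num))
      (pm_base 5 (by norm_num)))
     (pm_two (S := 31 ::ₘ 0) (A := 3 ::ₘ 5 ::ₘ 0) (S' := 0) (A' := 0) 31 3 5 2 5 (by decide) (by decide) (by norm_num)
      (pm_base 5 (by norm_num))
      (pm_base 3 (by norm_num))))))

lemma small4_9 : PosM (18 ::ₘ 29 ::ₘ 31 ::ₘ 33 ::ₘ 0) (1 ::ₘ 3 ::ₘ 5 ::ₘ 7 ::ₘ 9 ::ₘ 0) :=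
  (pm_one (S := 18 ::ₘ 29 ::ₘ 31 ::ₘ 33 ::ₘ 0) (A := 1 ::ₘ 3 ::ₘ 5 ::ₘ 7 ::ₘ 9 ::ₘ 0) (S' := 29 ::ₘ 31 ::ₘ 33 ::ₘ 0) (A' := 1 ::ₘ 3 ::ₘ 5 ::ₘ 7 ::ₘ 0) 18 9 2 (by decide) (by decide) (by norm_num)
   (pm_one (S := 29 ::ₘ 31 ::ₘ 33 ::ₘ 0) (A := 1 ::ₘ 3 ::ₘ 5 ::ₘ 7 ::ₘ 0) (S' := 31 ::ₘ 33 ::ₘ 0) (A' := 3 ::ₘ 5 ::ₘ 7 ::ₘ 0) 29 1 29 (by decide) (by decide) (by norm_num)
    (pm_two (S := 31 ::ₘ 33 ::ₘ 0) (A := 3 ::ₘ 5 ::ₘ 7 ::ₘ 0) (S' := 33 ::ₘ 0) (A' := 5 ::ₘ 0) 31 3 7 1 4 (by decide) (by decide) (by norm_num)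
     (pm_two (S := 33 ::ₘ 0) (A := 7 ::ₘ 5 ::ₘ 0) (S' := 0) (A' := 0) 33 5 7 1 4 (by decide) (by decide) (by norm_num)
      (pm_base 7 (by norm_num))
      (pm_base 5 (by norm_num)))
     (pm_one (S := 33 ::ₘ 0) (A := 3 ::ₘ 5 ::ₘ 0) (S' := 0) (A' := 5 ::ₘ 0) 33 3 11 (by decide) (by decide) (by norm_num)
      (pm_base 5 (by norm_num))))))

lemma small4_10 : PosM (20 ::ₘ 31 ::ₘ 33 ::ₘ 35 ::ₘ 0) (1 ::ₘ 3 ::ₘ 5 ::ₘ 7 ::ₘ 9 ::ₘ 0) :=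
  (pm_one (S := 20 ::ₘ 31 ::ₘ 33 ::ₘ 35 ::ₘ 0) (A := 1 ::ₘ 3 ::ₘ 5 ::ₘ 7 ::ₘ 9 ::ₘ 0) (S' := 31 ::ₘ 33 ::ₘ 35 ::ₘ 0) (A' := 3 ::ₘ 5 ::ₘ 7 ::ₘ 9 ::ₘ 0) 20 1 20 (by decide) (by decide) (by norm_num)
   (pm_two (S := 31 ::ₘ 33 ::ₘ 35 ::ₘ 0) (A := 3 ::ₘ 5 ::ₘ 7 ::ₘ 9 ::ₘ 0) (S' := 33 ::ₘ 35 ::ₘ 0) (A' := 5 ::ₘ 9 ::ₘ 0) 31 3 7 1 4 (by decide) (by decide) (by norm_num)
    (pm_two (S := 33 ::ₘ 35 ::ₘ 0) (A := 7 ::ₘ 5 ::ₘ 9 ::ₘ 0) (S' := 35 ::ₘ 0) (A' := 7 ::ₘ 0) 33 5 9 3 2 (by decide) (by decide) (by norm_num)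
     (pm_one (S := 35 ::ₘ 0) (A := 9 ::ₘ 7 ::ₘ 0) (S' := 0) (A' := 9 ::ₘ 0) 35 7 5 (by decide) (by decide) (by norm_num)
      (pm_base 9 (by norm_num)))
     (pm_one (S := 35 ::ₘ 0) (A := 5 ::ₘ 7 ::ₘ 0) (S' := 0) (A' := 7 ::ₘ 0) 35 5 7 (by decide) (by decide) (by norm_num)
      (pm_base 7 (by norm_num))))
    (pm_one (S := 33 ::ₘ 35 ::ₘ 0) (A := 3 ::ₘ 5 ::ₘ 9 ::ₘ 0) (S' := 35 ::ₘ 0) (A' := 5 ::ₘ 9 ::ₘ 0) 33 3 11 (by decide) (by decide) (by norm_num)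
     (pm_one (S := 35 ::ₘ 0) (A := 5 ::ₘ 9 ::ₘ 0) (S' := 0) (A' := 9 ::ₘ 0) 35 5 7 (by decide) (by decide) (by norm_num)
      (pm_base 9 (by norm_num))))))

lemma small4_11 : PosM (22 ::ₘ 33 ::ₘ 35 ::ₘ 37 ::ₘ 0) (1 ::ₘ 3 ::ₘ 5 ::ₘ 7 ::ₘ 9 ::ₘ 0) :=
  (pm_one (S := 22 ::ₘ 33 ::ₘ 35 ::ₘ 37 ::ₘ 0) (A := 1 ::ₘ 3 ::ₘ 5 ::ₘ 7 ::ₘ 9 ::ₘ 0) (S' := 33 ::ₘ 35 ::ₘ 37 ::ₘ 0) (A' := 3 ::ₘ 5 ::ₘ 7 ::ₘ 9 ::ₘ 0) 22 1 22 (by decide) (by decide) (by norm_num)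
   (pm_one (S := 33 ::ₘ 35 ::ₘ 37 ::ₘ 0) (A := 3 ::ₘ 5 ::ₘ 7 ::ₘ 9 ::ₘ 0) (S' := 35 ::ₘ 37 ::ₘ 0) (A' := 5 ::ₘ 7 ::ₘ 9 ::ₘ 0) 33 3 11 (by decide) (by decide) (by norm_num)
    (pm_one (S := 35 ::ₘ 37 ::ₘ 0) (A := 5 ::ₘ 7 ::ₘ 9 ::ₘ 0) (S' := 37 ::ₘ 0) (A' := 7 ::ₘ 9 ::ₘ 0) 35 5 7 (by decide) (by decide) (by norm_num)
     (pm_two (S := 37 ::ₘ 0) (A := 7 ::ₘ 9 ::ₘ 0) (S' := 0) (A' := 0) 37 7 9 4 1 (by decide) (by decide) (by norm_num)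
      (pm_base 9 (by norm_num))
      (pm_base 7 (by norm_num))))))

lemma small4_12 : PosM (24 ::ₘ 35 ::ₘ 37 ::ₘ 39 ::ₘ 0) (1 ::ₘ 3 ::ₘ 5 ::ₘ 7 ::ₘ 9 ::ₘ 0) :=
  (pm_one (S := 24 ::ₘ 35 ::ₘ 37 ::ₘ 39 ::ₘ 0) (A := 1 ::ₘ 3 ::ₘ 5 ::ₘ 7 ::ₘ 9 ::ₘ 0) (S' := 35 ::ₘ 37 ::ₘ 39 ::ₘ 0) (A' := 3 ::ₘ 5 ::ₘ 7 ::ₘ 9 ::ₘ 0) 24 1 24 (by decide) (by decide) (by norm_num)
   (pm_one (S := 35 ::ₘ 37 ::ₘ 39 ::ₘ 0) (A := 3 ::ₘ 5 ::ₘ 7 ::ₘ 9 ::ₘ 0) (S' := 37 ::ₘ 39 ::ₘ 0) (A' := 3 ::ₘ 5 ::ₘ 9 ::ₘ 0) 35 7 5 (by decide) (by decide) (by norm_num)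
    (pm_two (S := 37 ::ₘ 39 ::ₘ 0) (A := 3 ::ₘ 5 ::ₘ 9 ::ₘ 0) (S' := 39 ::ₘ 0) (A' := 3 ::ₘ 0) 37 5 9 2 3 (by decide) (by decide) (by norm_num)
     (pm_one (S := 39 ::ₘ 0) (A := 9 ::ₘ 3 ::ₘ 0) (S' := 0) (A' := 9 ::ₘ 0) 39 3 13 (by decide) (by decide) (by norm_num)
      (pm_base 9 (by norm_num)))
     (pm_one (S := 39 ::ₘ 0) (A := 5 ::ₘ 3 ::ₘ 0) (S' := 0) (A' := 5 ::ₘ 0) 39 3 13 (by decide) (by decide) (by norm_num)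
      (pm_base 5 (by norm_num))))))

lemma small4_13 : PosM (26 ::ₘ 37 ::ₘ 39 ::ₘ 41 ::ₘ 0) (1 ::ₘ 3 ::ₘ 5 ::ₘ 7 ::ₘ 9 ::ₘ 0) :=
  (pm_one (S := 26 ::ₘ 37 ::ₘ 39 ::ₘ 41 ::ₘ 0) (A := 1 ::ₘ 3 ::ₘ 5 ::ₘ 7 ::ₘ 9 ::ₘ 0) (S' := 37 ::ₘ 39 ::ₘ 41 ::ₘ 0) (A' := 3 ::ₘ 5 ::ₘ 7 ::ₘ 9 ::ₘ 0) 26 1 26 (by decide) (by decide) (by norm_num)
   (pm_two (S := 37 ::ₘ 39 ::ₘ 41 ::ₘ 0) (A := 3 ::ₘ 5 ::ₘ 7 ::ₘ 9 ::ₘ 0) (S' := 39 ::ₘ 41 ::ₘ 0) (A' := 5 ::ₘ 9 ::ₘ 0) 37 3 7 3 4 (by decide) (by decide) (by norm_num)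
    (pm_two (S := 39 ::ₘ 41 ::ₘ 0) (A := 7 ::ₘ 5 ::ₘ 9 ::ₘ 0) (S' := 41 ::ₘ 0) (A' := 9 ::ₘ 0) 39 5 7 5 2 (by decide) (by decide) (by norm_num)
     (pm_two (S := 41 ::ₘ 0) (A := 7 ::ₘ 9 ::ₘ 0) (S' := 0) (A' := 0) 41 7 9 2 3 (by decide) (by decide) (by norm_num)
      (pm_base 9 (by norm_num))
      (pm_base 7 (by norm_num)))
     (pm_two (S := 41 ::ₘ 0) (A := 5 ::ₘ 9 ::ₘ 0) (S' := 0) (A' := 0) 41 5 9 1 4 (by decide) (by decide) (by norm_num)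
      (pm_base 9 (by norm_num))
      (pm_base 5 (by norm_num))))
    (pm_one (S := 39 ::ₘ 41 ::ₘ 0) (A := 3 ::ₘ 5 ::ₘ 9 ::ₘ 0) (S' := 41 ::ₘ 0) (A' := 5 ::ₘ 9 ::ₘ 0) 39 3 13 (by decide) (by decide) (by norm_num)
     (pm_two (S := 41 ::ₘ 0) (A := 5 ::ₘ 9 ::ₘ 0) (S' := 0) (A' := 0) 41 5 9 1 4 (by decide) (by decide) (by norm_num)
      (pm_base 9 (by norm_num))
      (pm_base 5 (by norm_num))))))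

lemma small4_14 : PosM (28 ::ₘ 39 ::ₘ 41 ::ₘ 43 ::ₘ 0) (1 ::ₘ 3 ::ₘ 5 ::ₘ 7 ::ₘ 9 ::ₘ 0) :=
  (pm_one (S := 28 ::ₘ 39 ::ₘ 41 ::ₘ 43 ::ₘ 0) (A := 1 ::ₘ 3 ::ₘ 5 ::ₘ 7 ::ₘ 9 ::ₘ 0) (S' := 39 ::ₘ 41 ::ₘ 43 ::ₘ 0) (A' := 3 ::ₘ 5 ::ₘ 7 ::ₘ 9 ::ₘ 0) 28 1 28 (by decide) (by decide) (by norm_num)
   (pm_one (S := 39 ::ₘ 41 ::ₘ 43 ::ₘ 0) (A := 3 ::ₘ 5 ::ₘ 7 ::ₘ 9 ::ₘ 0) (S' := 41 ::ₘ 43 ::ₘ 0) (A' := 5 ::ₘ 7 ::ₘ 9 ::ₘ 0) 39 3 13 (by decide) (by decide) (by norm_num)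
    (pm_two (S := 41 ::ₘ 43 ::ₘ 0) (A := 5 ::ₘ 7 ::ₘ 9 ::ₘ 0) (S' := 43 ::ₘ 0) (A' := 9 ::ₘ 0) 41 5 7 4 3 (by decide) (by decide) (by norm_num)
     (pm_two (S := 43 ::ₘ 0) (A := 7 ::ₘ 9 ::ₘ 0) (S' := 0) (A' := 0) 43 7 9 1 4 (by decide) (by decide) (by norm_num)
      (pm_base 9 (by norm_num))
      (pm_base 7 (by norm_num)))
     (pm_two (S := 43 ::ₘ 0) (A := 5 ::ₘ 9 ::ₘ 0) (S' := 0) (A' := 0) 43 5 9 5 2 (by decide) (by decide) (by norm_num)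
      (pm_base 9 (by norm_num))
      (pm_base 5 (by norm_num))))))

lemma small4_15 : PosM (30 ::ₘ 41 ::ₘ 43 ::ₘ 45 ::ₘ 0) (1 ::ₘ 3 ::ₘ 5 ::ₘ 7 ::ₘ 9 ::ₘ 0) :=
  (pm_one (S := 30 ::ₘ 41 ::ₘ 43 ::ₘ 45 ::ₘ 0) (A := 1 ::ₘ 3 ::ₘ 5 ::ₘ 7 ::ₘ 9 ::ₘ 0) (S' := 41 ::ₘ 43 ::ₘ 45 ::ₘ 0) (A' := 3 ::ₘ 5 ::ₘ 7 ::ₘ 9 ::ₘ 0) 30 1 30 (by decide) (by decide) (by norm_num)
   (pm_two (S := 41 ::ₘ 43 ::ₘ 45 ::ₘ 0) (A := 3 ::ₘ 5 ::ₘ 7 ::ₘ 9 ::ₘ 0) (S' := 43 ::ₘ 45 ::ₘ 0) (A' := 5 ::ₘ 9 ::ₘ 0) 41 3 7 2 5 (by decide) (by decide) (by norm_num)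
    (pm_two (S := 43 ::ₘ 45 ::ₘ 0) (A := 7 ::ₘ 5 ::ₘ 9 ::ₘ 0) (S' := 45 ::ₘ 0) (A' := 9 ::ₘ 0) 43 5 7 3 4 (by decide) (by decide) (by norm_num)
     (pm_one (S := 45 ::ₘ 0) (A := 7 ::ₘ 9 ::ₘ 0) (S' := 0) (A' := 7 ::ₘ 0) 45 9 5 (by decide) (by decide) (by norm_num)
      (pm_base 7 (by norm_num)))
     (pm_one (S := 45 ::ₘ 0) (A := 5 ::ₘ 9 ::ₘ 0) (S' := 0) (A' := 5 ::ₘ 0) 45 9 5 (by decide) (by decide) (by norm_num)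
      (pm_base 5 (by norm_num))))
    (pm_two (S := 43 ::ₘ 45 ::ₘ 0) (A := 3 ::ₘ 5 ::ₘ 9 ::ₘ 0) (S' := 45 ::ₘ 0) (A' := 3 ::ₘ 0) 43 5 9 5 2 (by decide) (by decide) (by norm_num)
     (pm_one (S := 45 ::ₘ 0) (A := 9 ::ₘ 3 ::ₘ 0) (S' := 0) (A' := 3 ::ₘ 0) 45 9 5 (by decide) (by decide) (by norm_num)
      (pm_base 3 (by norm_num)))
     (pm_one (S := 45 ::ₘ 0) (A := 5 ::ₘ 3 ::ₘ 0) (S' := 0) (A' := 3 ::ₘ 0) 45 5 9 (by decide) (by decide) (by norm_num)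
      (pm_base 3 (by norm_num))))))

lemma small4_16 : PosM (32 ::ₘ 43 ::ₘ 45 ::ₘ 47 ::ₘ 0) (1 ::ₘ 3 ::ₘ 5 ::ₘ 7 ::ₘ 9 ::ₘ 0) :=
  (pm_one (S := 32 ::ₘ 43 ::ₘ 45 ::ₘ 47 ::ₘ 0) (A := 1 ::ₘ 3 ::ₘ 5 ::ₘ 7 ::ₘ 9 ::ₘ 0) (S' := 43 ::ₘ 45 ::ₘ 47 ::ₘ 0) (A' := 3 ::ₘ 5 ::ₘ 7 ::ₘ 9 ::ₘ 0) 32 1 32 (by decide) (by decide) (by norm_num)
   (pm_two (S := 43 ::ₘ 45 ::ₘ 47 ::ₘ 0) (A := 3 ::ₘ 5 ::ₘ 7 ::ₘ 9 ::ₘ 0) (S' := 45 ::ₘ 47 ::ₘ 0) (A' := 5 ::ₘ 9 ::ₘ 0) 43 3 7 5 4 (by decide) (by decide) (by norm_num)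
    (pm_one (S := 45 ::ₘ 47 ::ₘ 0) (A := 7 ::ₘ 5 ::ₘ 9 ::ₘ 0) (S' := 47 ::ₘ 0) (A' := 7 ::ₘ 5 ::ₘ 0) 45 9 5 (by decide) (by decide) (by norm_num)
     (pm_two (S := 47 ::ₘ 0) (A := 7 ::ₘ 5 ::ₘ 0) (S' := 0) (A' := 0) 47 5 7 1 6 (by decide) (by decide) (by norm_num)
      (pm_base 7 (by norm_num))
      (pm_base 5 (by norm_num))))
    (pm_one (S := 45 ::ₘ 47 ::ₘ 0) (A := 3 ::ₘ 5 ::ₘ 9 ::ₘ 0) (S' := 47 ::ₘ 0) (A' := 3 ::ₘ 5 ::ₘ 0) 45 9 5 (by decide) (by decide) (by norm_num)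
     (pm_two (S := 47 ::ₘ 0) (A := 3 ::ₘ 5 ::ₘ 0) (S' := 0) (A' := 0) 47 3 5 4 7 (by decide) (by decide) (by norm_num)
      (pm_base 5 (by norm_num))
      (pm_base 3 (by norm_num))))))

lemma small4_17 : PosM (34 ::ₘ 45 ::ₘ 47 ::ₘ 49 ::ₘ 0) (1 ::ₘ 3 ::ₘ 5 ::ₘ 7 ::ₘ 9 ::ₘ 0) :=
  (pm_one (S := 34 ::ₘ 45 ::ₘ 47 ::ₘ 49 ::ₘ 0) (A := 1 ::ₘ 3 ::ₘ 5 ::ₘ 7 ::ₘ 9 ::ₘ 0) (S' := 45 ::ₘ 47 ::ₘ 49 ::ₘ 0) (A' := 3 ::ₘ 5 ::ₘ 7 ::ₘ 9 ::ₘ 0) 34 1 34 (by decide) (by decide) (by norm_num)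
   (pm_one (S := 45 ::ₘ 47 ::ₘ 49 ::ₘ 0) (A := 3 ::ₘ 5 ::ₘ 7 ::ₘ 9 ::ₘ 0) (S' := 47 ::ₘ 49 ::ₘ 0) (A' := 3 ::ₘ 5 ::ₘ 7 ::ₘ 0) 45 9 5 (by decide) (by decide) (by norm_num)
    (pm_two (S := 47 ::ₘ 49 ::ₘ 0) (A := 3 ::ₘ 5 ::ₘ 7 ::ₘ 0) (S' := 49 ::ₘ 0) (A' := 5 ::ₘ 0) 47 3 7 4 5 (by decide) (by decide) (by norm_num)
     (pm_one (S := 49 ::ₘ 0) (A := 7 ::ₘ 5 ::ₘ 0) (S' := 0) (A' := 5 ::ₘ 0) 49 7 7 (by decide) (by decide) (by norm_num)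
      (pm_base 5 (by norm_num)))
     (pm_two (S := 49 ::ₘ 0) (A := 3 ::ₘ 5 ::ₘ 0) (S' := 0) (A' := 0) 49 3 5 3 8 (by decide) (by decide) (by norm_num)
      (pm_base 5 (by norm_num))
      (pm_base 3 (by norm_num))))))

lemma small4_18 : PosM (36 ::ₘ 47 ::ₘ 49 ::ₘ 51 ::ₘ 0) (1 ::ₘ 3 ::ₘ 5 ::ₘ 7 ::ₘ 9 ::ₘ 0) :=
  (pm_one (S := 36 ::ₘ 47 ::ₘ 49 ::ₘ 51 ::ₘ 0) (A := 1 ::ₘ 3 ::ₘ 5 ::ₘ 7 ::ₘ 9 ::ₘ 0) (S' := 47 ::ₘ 49 ::ₘ 51 ::ₘ 0) (A' := 3 ::ₘ 5 ::ₘ 7 ::ₘ 9 ::ₘ 0) 36 1 36 (by decide) (by decide) (by norm_num)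
   (pm_two (S := 47 ::ₘ 49 ::ₘ 51 ::ₘ 0) (A := 3 ::ₘ 5 ::ₘ 7 ::ₘ 9 ::ₘ 0) (S' := 49 ::ₘ 51 ::ₘ 0) (A' := 5 ::ₘ 9 ::ₘ 0) 47 3 7 4 5 (by decide) (by decide) (by norm_num)
    (pm_one (S := 49 ::ₘ 51 ::ₘ 0) (A := 7 ::ₘ 5 ::ₘ 9 ::ₘ 0) (S' := 51 ::ₘ 0) (A' := 5 ::ₘ 9 ::ₘ 0) 49 7 7 (by decide) (by decide) (by norm_num)
     (pm_two (S := 51 ::ₘ 0) (A := 5 ::ₘ 9 ::ₘ 0) (S' := 0) (A' := 0) 51 5 9 3 4 (by decide) (by decide) (by norm_num)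
      (pm_base 9 (by norm_num))
      (pm_base 5 (by norm_num))))
    (pm_two (S := 49 ::ₘ 51 ::ₘ 0) (A := 3 ::ₘ 5 ::ₘ 9 ::ₘ 0) (S' := 51 ::ₘ 0) (A' := 3 ::ₘ 0) 49 5 9 8 1 (by decide) (by decide) (by norm_num)
     (pm_one (S := 51 ::ₘ 0) (A := 9 ::ₘ 3 ::ₘ 0) (S' := 0) (A' := 9 ::ₘ 0) 51 3 17 (by decide) (by decide) (by norm_num)
      (pm_base 9 (by norm_num)))
     (pm_one (S := 51 ::ₘ 0) (A := 5 ::ₘ 3 ::ₘ 0) (S' := 0) (A' := 5 ::ₘ 0) 51 3 17 (by decide) (by decide) (by norm_num)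
      (pm_base 5 (by norm_num))))))

lemma t4_18_15 : PosM (18 ::ₘ 13 ::ₘ 15 ::ₘ 0) (3 ::ₘ 5 ::ₘ 7 ::ₘ 9 ::ₘ 0) :=
  (pm_two (S := 18 ::ₘ 13 ::ₘ 15 ::ₘ 0) (A := 3 ::ₘ 5 ::ₘ 7 ::ₘ 9 ::ₘ 0) (S' := 18 ::ₘ 15 ::ₘ 0) (A' := 7 ::ₘ 9 ::ₘ 0) 13 3 5 1 2 (by decide) (by decide) (by norm_num)
   (pm_one (S := 18 ::ₘ 15 ::ₘ 0) (A := 5 ::ₘ 7 ::ₘ 9 ::ₘ 0) (S' := 18 ::ₘ 0) (A' := 7 ::ₘ 9 ::ₘ 0) 15 5 3 (by decide) (by decide) (by norm_num)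
    (pm_one (S := 18 ::ₘ 0) (A := 7 ::ₘ 9 ::ₘ 0) (S' := 0) (A' := 7 ::ₘ 0) 18 9 2 (by decide) (by decide) (by norm_num)
     (pm_base 7 (by norm_num))))
   (pm_one (S := 18 ::ₘ 15 ::ₘ 0) (A := 3 ::ₘ 7 ::ₘ 9 ::ₘ 0) (S' := 18 ::ₘ 0) (A' := 7 ::ₘ 9 ::ₘ 0) 15 3 5 (by decide) (by decide) (by norm_num)
    (pm_one (S := 18 ::ₘ 0) (A := 7 ::ₘ 9 ::ₘ 0) (S' := 0) (A' := 7 ::ₘ 0) 18 9 2 (by decide) (by decide) (by norm_num)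
     (pm_base 7 (by norm_num)))))

lemma t4_16_15 : PosM (16 ::ₘ 13 ::ₘ 15 ::ₘ 0) (3 ::ₘ 5 ::ₘ 7 ::ₘ 9 ::ₘ 0) :=
  (pm_two (S := 16 ::ₘ 13 ::ₘ 15 ::ₘ 0) (A := 3 ::ₘ 5 ::ₘ 7 ::ₘ 9 ::ₘ 0) (S' := 16 ::ₘ 15 ::ₘ 0) (A' := 7 ::ₘ 9 ::ₘ 0) 13 3 5 1 2 (by decide) (by decide) (by norm_num)
   (pm_one (S := 16 ::ₘ 15 ::ₘ 0) (A := 5 ::ₘ 7 ::ₘ 9 ::ₘ 0) (S' := 16 ::ₘ 0) (A' := 7 ::ₘ 9 ::ₘ 0) 15 5 3 (by decide) (by decide) (by norm_num)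
    (pm_two (S := 16 ::ₘ 0) (A := 7 ::ₘ 9 ::ₘ 0) (S' := 0) (A' := 0) 16 7 9 1 1 (by decide) (by decide) (by norm_num)
     (pm_base 9 (by norm_num))
     (pm_base 7 (by norm_num))))
   (pm_one (S := 16 ::ₘ 15 ::ₘ 0) (A := 3 ::ₘ 7 ::ₘ 9 ::ₘ 0) (S' := 16 ::ₘ 0) (A' := 7 ::ₘ 9 ::ₘ 0) 15 3 5 (by decide) (by decide) (by norm_num)
    (pm_two (S := 16 ::ₘ 0) (A := 7 ::ₘ 9 ::ₘ 0) (S' := 0) (A' := 0) 16 7 9 1 1 (by decide) (by decide) (by norm_num)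
     (pm_base 9 (by norm_num))
     (pm_base 7 (by norm_num)))))

lemma t4_18_19 : PosM (18 ::ₘ 15 ::ₘ 19 ::ₘ 0) (3 ::ₘ 5 ::ₘ 7 ::ₘ 9 ::ₘ 0) :=
  (pm_one (S := 18 ::ₘ 15 ::ₘ 19 ::ₘ 0) (A := 3 ::ₘ 5 ::ₘ 7 ::ₘ 9 ::ₘ 0) (S' := 18 ::ₘ 19 ::ₘ 0) (A' := 3 ::ₘ 7 ::ₘ 9 ::ₘ 0) 15 5 3 (by decide) (by decide) (by norm_num)
   (pm_one (S := 18 ::ₘ 19 ::ₘ 0) (A := 3 ::ₘ 7 ::ₘ 9 ::ₘ 0) (S' := 19 ::ₘ 0) (A' := 3 ::ₘ 7 ::ₘ 0) 18 9 2 (by decide) (by decide) (by norm_num)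
    (pm_two (S := 19 ::ₘ 0) (A := 3 ::ₘ 7 ::ₘ 0) (S' := 0) (A' := 0) 19 3 7 4 1 (by decide) (by decide) (by norm_num)
     (pm_base 7 (by norm_num))
     (pm_base 3 (by norm_num)))))

lemma t4_16_19 : PosM (16 ::ₘ 15 ::ₘ 19 ::ₘ 0) (3 ::ₘ 5 ::ₘ 7 ::ₘ 9 ::ₘ 0) :=
  (pm_one (S := 16 ::ₘ 15 ::ₘ 19 ::ₘ 0) (A := 3 ::ₘ 5 ::ₘ 7 ::ₘ 9 ::ₘ 0) (S' := 16 ::ₘ 19 ::ₘ 0) (A' := 5 ::ₘ 7 ::ₘ 9 ::ₘ 0) 15 3 5 (by decide) (by decide) (by norm_num)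
   (pm_two (S := 16 ::ₘ 19 ::ₘ 0) (A := 5 ::ₘ 7 ::ₘ 9 ::ₘ 0) (S' := 19 ::ₘ 0) (A' := 5 ::ₘ 0) 16 7 9 1 1 (by decide) (by decide) (by norm_num)
    (pm_two (S := 19 ::ₘ 0) (A := 9 ::ₘ 5 ::ₘ 0) (S' := 0) (A' := 0) 19 5 9 2 1 (by decide) (by decide) (by norm_num)
     (pm_base 9 (by norm_num))
     (pm_base 5 (by norm_num)))
    (pm_two (S := 19 ::ₘ 0) (A := 7 ::ₘ 5 ::ₘ 0) (S' := 0) (A' := 0) 19 5 7 1 2 (by decide) (by decide) (by norm_num)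
     (pm_base 7 (by norm_num))
     (pm_base 5 (by norm_num)))))

lemma semi59 {s : ℕ} (hs : 32 ≤ s) : ∃ x y, s = 9 * x + 5 * y := by
  have h5 : s % 5 = 0 ∨ s % 5 = 1 ∨ s % 5 = 2 ∨ s % 5 = 3 ∨ s % 5 = 4 := by omega
  rcases h5 with h | h | h | h | h
  · exact ⟨0, s / 5, by omega⟩
  · exact ⟨4, (s - 36) / 5, by omega⟩
  · exact ⟨3, (s - 27) / 5, by omega⟩
  · exact ⟨2, (s - 18) / 5, by omega⟩
  · exact ⟨1, (s - 9) / 5, by omega⟩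

lemma semi79 {s : ℕ} (hs : 48 ≤ s) : ∃ x y, s = 9 * x + 7 * y := by
  have h7 : s % 7 = 0 ∨ s % 7 = 1 ∨ s % 7 = 2 ∨ s % 7 = 3 ∨ s % 7 = 4 ∨ s % 7 = 5 ∨
    s % 7 = 6 := by omega
  rcases h7 with h | h | h | h | h | h | h
  · exact ⟨0, s / 7, by omega⟩
  · exact ⟨4, (s - 36) / 7, by omega⟩
  · exact ⟨1, (s - 9) / 7, by omega⟩
  · exact ⟨5, (s - 45) / 7, by omega⟩
  · exact ⟨2, (s - 18) / 7, by omega⟩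
  · exact ⟨6, (s - 54) / 7, by omega⟩
  · exact ⟨3, (s - 27) / 7, by omega⟩

lemma pair579 {s t : ℕ} (hs : 24 ≤ s) (ht : 48 ≤ t) :
    Pos ((1 - X ^ s) * (1 - X ^ t)) ((1 - X ^ 5) * (1 - X ^ 7) * (1 - X ^ 9)) := by
  have := pos_triple (a := 9) (b := 5) (c := 7) (s := s) (t := t) (by norm_num) (by norm_num)
    (by norm_num) (semi57 (Or.inl hs)) (semi79 ht) (semi59 (by omega))
  convert this using 1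
  ring

/-- `n = 4`, numerator `(1 - q^{2j})(1 - q^{2j+11})(1 - q^{2j+13})(1 - q^{2j+15})`. -/
lemma pos_four (j : ℕ) :
    Pos ((1 - X ^ (2 * j)) *
      ((1 - X ^ (2 * j + 11)) * (1 - X ^ (2 * j + 13)) * (1 - X ^ (2 * j + 15))))
    ((1 - X) * ((1 - X ^ 3) * ((1 - X ^ 5) * (1 - X ^ 7) * (1 - X ^ 9)))) := by
  by_cases hj : 19 ≤ j
  · refine (pos_one _).mul ?_
    have hm : j % 3 = 0 ∨ j % 3 = 1 ∨ j % 3 = 2 := by omega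
    have h3 : (2 * j + 11) % 3 = 0 ∨ (2 * j + 13) % 3 = 0 ∨ (2 * j + 15) % 3 = 0 := by
      rcases hm with hm | hm | hm
      · right; right; omega
      · right; left; omega
      · left; omega
    rcases h3 with h | h | h
    · obtain ⟨x, hx⟩ : ∃ x, 2 * j + 11 = 3 * x := ⟨(2 * j + 11) / 3, by omega⟩
      have := (pos_quot 3 x).mul (pair579 (s := 2 * j + 13) (t := 2 * j + 15) (by omega)
        (by omega))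
      rw [← hx] at this
      convert this using 1
      ring
    · obtain ⟨x, hx⟩ : ∃ x, 2 * j + 13 = 3 * x := ⟨(2 * j + 13) / 3, by omega⟩
      have := (pos_quot 3 x).mul (pair579 (s := 2 * j + 11) (t := 2 * j + 15) (by omega)
        (by omega))
      rw [← hx] at this
      convert this using 1
      ring
    · obtain ⟨x, hx⟩ : ∃ x, 2 * j + 15 = 3 * x := ⟨(2 * j + 15) / 3, by omega⟩
      have := (pos_quot 3 x).mul (pair579 (s := 2 * j + 11) (t := 2 * j + 13) (by omega)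
        (by omega))
      rw [← hx] at this
      convert this using 1
      ring
  · have h1 : Pos (1 - X : PowerSeries ℤ) (1 - X) := ⟨1, nn_one, by ring⟩
    interval_cases j
    · exact ⟨0, nn_zero, by simp⟩
    · have key : ((1 - X ^ (2 * 1)) * ((1 - X ^ (2 * 1 + 11)) * (1 - X ^ (2 * 1 + 13)) *
          (1 - X ^ (2 * 1 + 15))) : PowerSeries ℤ) = (1 - X) *
          (((1 - X ^ 18) * ((1 - X ^ 13) * (1 - X ^ 15))) +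
          X ^ 1 * ((1 - X ^ 16) * ((1 - X ^ 13) * (1 - X ^ 15)))) := by ring
      rw [key]
      exact h1.mul ((of_three t4_18_15).add ((of_three t4_16_15).shift _))
    · have key : ((1 - X ^ (2 * 2)) * ((1 - X ^ (2 * 2 + 11)) * (1 - X ^ (2 * 2 + 13)) *
          (1 - X ^ (2 * 2 + 15))) : PowerSeries ℤ) = (1 - X) *
          (((1 - X ^ 18) * ((1 - X ^ 15) * (1 - X ^ 19))) +
          X ^ 1 * ((1 - X ^ 16) * ((1 - X ^ 15) * (1 - X ^ 19))) +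
          X ^ 2 * ((1 - X ^ 18) * ((1 - X ^ 15) * (1 - X ^ 19))) +
          X ^ 3 * ((1 - X ^ 16) * ((1 - X ^ 15) * (1 - X ^ 19)))) := by ring
      rw [key]
      exact h1.mul ((((of_three t4_18_19).add ((of_three t4_16_19).shift _)).add
        ((of_three t4_18_19).shift _)).add ((of_three t4_16_19).shift _))
    · exact of_four small4_3
    · exact of_four small4_4
    · exact of_four small4_5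
    · exact of_four small4_6
    · exact of_four small4_7
    · exact of_four small4_8
    · exact of_four small4_9
    · exact of_four small4_10
    · exact of_four small4_11
    · exact of_four small4_12
    · exact of_four small4_13
    · exact of_four small4_14
    · exact of_four small4_15
    · exact of_four small4_16
    · exact of_four small4_17
    · exact of_four small4_18

lemma pos_prod_fin (r : ℕ) (f g : Fin r → ℕ) (h : ∀ i, g i ∣ f i) :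
    Pos (∏ i, (1 - X ^ f i)) (∏ i, (1 - X ^ g i)) := by
  choose c hc using h
  refine ⟨∏ i, ∑ t ∈ range (c i), (X ^ g i) ^ t, ?_, ?_⟩
  · have : ∀ s : Finset (Fin r), NN (∏ i ∈ s, ∑ t ∈ range (c i), (X ^ g i) ^ t) := by
      intro s
      induction s using Finset.induction_on with
      | empty => simpa using nn_one
      | insert a s ha ih =>
        rw [prod_insert ha]
        refine NN.mul (nn_sum _ fun t => ?_) ih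
        rw [← pow_mul]; exact nn_X_pow _
    exact this _
  · rw [← prod_mul_distrib]
    refine prod_congr rfl fun i _ => ?_
    rw [mul_comm, mul_neg_geom_sum, hc i, pow_mul]

/-- The general product formula for the difference, and the divisibility criterion. -/
theorem infinite_family (G : ℕ → ℕ → PowerSeries ℤ)
    (hG : ∀ k n, 1 ≤ k → G k n * ∏ i ∈ range (n + 1), (1 - X ^ (2 * i + 1)) =
      ∏ i ∈ range n, (1 - X ^ (2 * k - 1 + 2 * i))) :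
    ∀ n k, 2 ≤ n → 2 * n ^ 2 ≤ k →
      (∃ σ : Equiv.Perm (Fin (n - 1)), ∀ i : Fin (n - 1),
        2 * (σ i : ℕ) + 1 ∣ 2 * k + 1 + 2 * (i : ℕ)) →
      ∀ m, 0 ≤ coeff m (G k n - G (k + 1) (n - 1)) := by
  intro n k h2 hk ⟨σ, hσ⟩
  obtain ⟨r, rfl⟩ : ∃ r, n = r + 1 := ⟨n - 1, by omega⟩
  have hkn : 2 * (r + 1) ^ 2 = 2 * (r * r) + 4 * r + 2 := by ring
  have hk' : r + 2 ≤ k := by nlinarith
  obtain ⟨j, rfl⟩ := Nat.exists_eq_add_of_le hk'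
  have hA := hG (r + 2 + j) (r + 1) (by omega)
  have hB := hG (r + 2 + j + 1) r (by omega)
  rw [prod_range_succ, prod_range_succ, prod_range_succ' (fun i => (1 - X ^ (2 * (r + 2 + j) - 1 + 2 * i) : PowerSeries ℤ)),
    prod_range (fun i => (1 - X ^ (2 * i + 1) : PowerSeries ℤ))] at hA
  rw [prod_range_succ, prod_range (fun i => (1 - X ^ (2 * i + 1) : PowerSeries ℤ))] at hB
  have hQ : ∏ i ∈ range r, (1 - X ^ (2 * (r + 2 + j) - 1 + 2 * (i + 1)) : PowerSeries ℤ) =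
      ∏ i : Fin r, (1 - X ^ (2 * (r + 2 + j) + 1 + 2 * (i : ℕ))) := by
    rw [prod_range]
    refine prod_congr rfl fun i _ => ?_
    rw [show 2 * (r + 2 + j) - 1 + 2 * ((i : ℕ) + 1) = 2 * (r + 2 + j) + 1 + 2 * (i : ℕ) by omega]
  have hQ' : ∏ i ∈ range r, (1 - X ^ (2 * (r + 2 + j + 1) - 1 + 2 * i) : PowerSeries ℤ) =
      ∏ i : Fin r, (1 - X ^ (2 * (r + 2 + j) + 1 + 2 * (i : ℕ))) := by
    rw [prod_range]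
    refine prod_congr rfl fun i _ => ?_
    rw [show 2 * (r + 2 + j + 1) - 1 + 2 * (i : ℕ) = 2 * (r + 2 + j) + 1 + 2 * (i : ℕ) by omega]
  rw [hQ, show 2 * (r + 2 + j) - 1 + 2 * 0 = 2 * r + 3 + 2 * j by omega] at hA
  rw [hQ'] at hB
  have hPs : (∏ i : Fin r, (1 - X ^ (2 * (σ i : ℕ) + 1) : PowerSeries ℤ)) =
      ∏ i : Fin r, (1 - X ^ (2 * (i : ℕ) + 1)) :=
    Equiv.prod_comp σ (fun i : Fin r => (1 - X ^ (2 * (i : ℕ) + 1) : PowerSeries ℤ))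
  have hP : Pos (∏ i : Fin r, (1 - X ^ (2 * (r + 2 + j) + 1 + 2 * (i : ℕ))))
      (∏ i : Fin r, (1 - X ^ (2 * (i : ℕ) + 1))) := by
    rw [← hPs]
    exact pos_prod_fin r _ _ hσ
  have hpair : Pos (1 - X ^ (2 * j)) ((1 - X ^ (2 * r + 1)) * (1 - X ^ (2 * r + 3))) := by
    refine pos_pair (by omega) (by omega) ?_
    have hg : (2 * r + 1).gcd (2 * r + 3) ∣ 2 * j := by
      have h1 := Nat.gcd_dvd_left (2 * r + 1) (2 * r + 3)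
      have h2 := Nat.gcd_dvd_right (2 * r + 1) (2 * r + 3)
      have h3 : (2 * r + 1).gcd (2 * r + 3) ∣ 2 := by
        have := Nat.dvd_sub h2 h1
        rwa [show 2 * r + 3 - (2 * r + 1) = 2 by omega] at this
      exact h3.trans (dvd_mul_right 2 j)
    obtain ⟨a, b, hab⟩ := Nat.exists_add_mul_eq_of_gcd_dvd_of_mul_pred_le _ _ _ hg (by
      simp only [Nat.pred_eq_sub_one, Nat.add_sub_cancel]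
      rw [show 2 * r + 3 - 1 = 2 * r + 2 by omega]
      nlinarith)
    exact ⟨a, b, by rw [← hab]; ring⟩
  have hne : (∏ i : Fin r, (1 - X ^ (2 * (i : ℕ) + 1) : PowerSeries ℤ)) ≠ 0 :=
    Finset.prod_ne_zero_iff.mpr fun i _ => one_sub_X_pow_ne _ (by omega)
  change NN _
  refine nn_of_pos (mul_ne_zero (mul_ne_zero (one_sub_X_pow_ne (2 * r + 1) (by omega))
    (one_sub_X_pow_ne (2 * r + 3) (by omega))) hne) ((hpair.mul hP).shift (2 * r + 3)) ?_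
  rw [show 2 * (r + 1) + 1 = 2 * r + 3 by ring] at hA
  rw [pow_add X (2 * r + 3) (2 * j)] at hA
  rw [show r + 1 + 1 + j = r + 2 + j by ring, show r + 1 - 1 = r by omega]
  linear_combination hA - (1 - X ^ (2 * r + 3)) * hB

/-- The question's difference `G_{k,n} - G_{k+1,n-1}` has nonnegative coefficients for
`n = 2, 3, 4` and every `k ≥ n + 1`. Here `G k n` is the power series
`(q^{2k-1}; q^2)_n / (q; q^2)_{n+1}`, given through its defining equation. -/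
theorem small_n (G : ℕ → ℕ → PowerSeries ℤ)
    (hG : ∀ k n, 1 ≤ k → G k n * ∏ i ∈ range (n + 1), (1 - X ^ (2 * i + 1)) =
      ∏ i ∈ range n, (1 - X ^ (2 * k - 1 + 2 * i))) :
    ∀ n k, 2 ≤ n → n ≤ 4 → n + 1 ≤ k → ∀ m, 0 ≤ coeff m (G k n - G (k + 1) (n - 1)) := by
  intro n k h2 h4 hk
  obtain ⟨j, rfl⟩ := Nat.exists_eq_add_of_le hk
  have hA := hG (n + 1 + j) n (by omega)
  have hB := hG (n + 1 + j + 1) (n - 1) (by omega)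
  have d1 := one_sub_X_pow_ne 1 (by norm_num)
  have d3 := one_sub_X_pow_ne 3 (by norm_num)
  have d5 := one_sub_X_pow_ne 5 (by norm_num)
  have d7 := one_sub_X_pow_ne 7 (by norm_num)
  have d9 := one_sub_X_pow_ne 9 (by norm_num)
  rw [pow_one] at d1
  interval_cases n
  · change NN _
    refine nn_of_pos (mul_ne_zero d1 (mul_ne_zero d3 d5)) ((pos_two j).shift 5) ?_
    simp only [prod_range_succ, prod_range_zero, one_mul] at hA hB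
    rw [show 2 * (2 + 1 + j) - 1 + 2 * 0 = 2 * j + 5 by omega,
      show 2 * (2 + 1 + j) - 1 + 2 * 1 = 2 * j + 7 by omega] at hA
    rw [show 2 * (2 + 1 + j + 1) - 1 + 2 * 0 = 2 * j + 7 by omega] at hB
    norm_num at hA hB
    linear_combination hA - (1 - X ^ 5) * hB
  · change NN _
    refine nn_of_pos (mul_ne_zero d1 (mul_ne_zero (mul_ne_zero d3 d5) d7))
      ((pos_three j).shift 7) ?_
    simp only [prod_range_succ, prod_range_zero, one_mul] at hA hB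
    rw [show 2 * (3 + 1 + j) - 1 + 2 * 0 = 2 * j + 7 by omega,
      show 2 * (3 + 1 + j) - 1 + 2 * 1 = 2 * j + 9 by omega,
      show 2 * (3 + 1 + j) - 1 + 2 * 2 = 2 * j + 11 by omega] at hA
    rw [show 2 * (3 + 1 + j + 1) - 1 + 2 * 0 = 2 * j + 9 by omega,
      show 2 * (3 + 1 + j + 1) - 1 + 2 * 1 = 2 * j + 11 by omega] at hB
    norm_num at hA hB
    linear_combination hA - (1 - X ^ 7) * hB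
  · change NN _
    refine nn_of_pos (mul_ne_zero d1 (mul_ne_zero d3 (mul_ne_zero (mul_ne_zero d5 d7) d9)))
      ((pos_four j).shift 9) ?_
    simp only [prod_range_succ, prod_range_zero, one_mul] at hA hB
    rw [show 2 * (4 + 1 + j) - 1 + 2 * 0 = 2 * j + 9 by omega,
      show 2 * (4 + 1 + j) - 1 + 2 * 1 = 2 * j + 11 by omega,
      show 2 * (4 + 1 + j) - 1 + 2 * 2 = 2 * j + 13 by omega,
      show 2 * (4 + 1 + j) - 1 + 2 * 3 = 2 * j + 15 by omega] at hA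
    rw [show 2 * (4 + 1 + j + 1) - 1 + 2 * 0 = 2 * j + 11 by omega,
      show 2 * (4 + 1 + j + 1) - 1 + 2 * 1 = 2 * j + 13 by omega,
      show 2 * (4 + 1 + j + 1) - 1 + 2 * 2 = 2 * j + 15 by omega] at hB
    norm_num at hA hB
    linear_combination hA - (1 - X ^ 9) * hB

end Pool.Agent.MP667609
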